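import Pool.Agent.H37.CSZ.Stmts

/-!
# Denominators of conductors, row `ZU3`: elements of `Sz(q)` conjugating an involution of the centre of the
Sylow subgroup into it
-/

set_option autoImplicit false

namespace Pool.CND

open Matrix

theorem zu3_thm (h1 : S_ZZB) : S_ZU3 := by
  intro n q f F _ _ φ hn hf hq hF hφ g z z' hw hgz
  obtain ⟨hB, -⟩ := h1 n q f F φ hn hf hq hF hφ
  have key : ∀ w ∈ ({z, z'} : Set (Sz φ)), w.1.1 2 1 = 0 ∧ w.1.1 3 1 = 0 ∧ w.1.1 3 2 = 0 ∧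
      w.1.1 3 3 = 1 ∧ w.1.1 2 2 = 1 ∧ w.1.1 2 3 = 0 ∧ w.1.1 1 2 = 0 ∧
      w.1.1 1 3 = w.1.1 0 2 ∧ w.1.1 0 2 ≠ 0 := by
    intro w hwm
    obtain ⟨a1, a2, a3, a4, a5, a6⟩ := hw w hwm
    obtain ⟨b1, b2, b3, _, b5, b6⟩ := hB w a1 a2 a3
    obtain ⟨c1, c2, c3, c4, c5, c6⟩ := b6 a4
    rw [a4, one_mul] at b5
    rw [a5] at c3 c4 c5
    rw [map_zero] at c4
    rw [zero_mul, add_zero] at c5
    exact ⟨b1, b2, b3, b5, c2, c3.symm, c4, c5, fun h => a6 (c6 a5 h)⟩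
  obtain ⟨x1, x2, x3, x4, x5, x6, x7, x8, x9⟩ := key z (by simp)
  obtain ⟨y1, y2, y3, y4, y5, y6, -, -, -⟩ := key z' (by simp)
  obtain ⟨u1, u2, u3, -, -, -⟩ := hw z' (by simp)
  have hM : g.1.1 * z.1.1 = z'.1.1 * g.1.1 := by
    have h := congrArg (fun w : Sz φ => w.1.1) hgz
    exact h
  have ent : ∀ i j : Fin 4, g.1.1 i 0 * z.1.1 0 j + g.1.1 i 1 * z.1.1 1 j + g.1.1 i 2 * z.1.1 2 j +
      g.1.1 i 3 * z.1.1 3 j = z'.1.1 i 0 * g.1.1 0 j + z'.1.1 i 1 * g.1.1 1 j +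
      z'.1.1 i 2 * g.1.1 2 j + z'.1.1 i 3 * g.1.1 3 j := by
    intro i j
    have h := congrFun (congrFun hM i) j
    simpa only [Matrix.mul_apply, Fin.sum_univ_four] using h
  have e22 := ent 2 2
  have e32 := ent 3 2
  have e23 := ent 2 3
  rw [x7, x5, x3, u2, y1, y5, y6] at e22
  rw [x7, x5, x3, u3, y2, y3, y4] at e32
  rw [x6, x4, x8, u2, y1, y5, y6] at e23
  have g20 : g.1.1 2 0 = 0 := by
    have h : g.1.1 2 0 * z.1.1 0 2 = 0 := by linear_combination e22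
    exact (mul_eq_zero.1 h).resolve_right x9
  have g30 : g.1.1 3 0 = 0 := by
    have h : g.1.1 3 0 * z.1.1 0 2 = 0 := by linear_combination e32
    exact (mul_eq_zero.1 h).resolve_right x9
  have g21 : g.1.1 2 1 = 0 := by
    rw [g20] at e23
    have h : g.1.1 2 1 * z.1.1 0 2 = 0 := by linear_combination e23
    exact (mul_eq_zero.1 h).resolve_right x9
  have hm := congrFun (congrFun g.2.2 1) 0
  have hm2 : g.1.1 0 0 * g.1.1 2 1 - g.1.1 0 1 * g.1.1 2 0 = φ (g.1.1 1 0) := hm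
  rw [g20, g21, mul_zero, mul_zero, sub_zero] at hm2
  exact ⟨(map_eq_zero φ).1 hm2.symm, g20, g30⟩

end Pool.CND
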